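import Mathlib
import Pool.Agent.Helper47.NI.Main

/-!
# Two families of forms which are stable under the norms of a double covering

`A` is a set of forms in `x`, `B` a set of forms in `y`; for `g ∈ B` and every form `v` of the same
degree there is `N ∈ A` with `N(x) = g(y) v(y'') + v(y) g(y'')`, and conversely.  If both contain a
form which is not zero, then the forms in `A` have no common divisor of positive degree.
-/

namespace Pool.Agent.Helper47.W3

open MvPolynomial Pool.Agent.Helper47.NI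

universe u

variable {k : Type u} [Field k] {n c : ℕ}

theorem unit_of_zero {F : MvPolynomial (Fin n) k} (hF : F.IsHomogeneous 0) (h0 : F ≠ 0) :
    IsUnit F := by
  have h1 : F.totalDegree = 0 := hF.totalDegree h0
  have h2 := totalDegree_eq_zero_iff_eq_C.mp h1
  have h3 : coeff 0 F ≠ 0 := fun h => h0 (by rw [h2, h, C_0])
  rw [h2]
  exact (isUnit_iff_ne_zero.mpr h3).map C

/-- The squarefree common divisor of largest degree. -/
theorem exists_gcd [Infinite k] {A : Set (MvPolynomial (Fin n) k)}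
    (hA0 : ∃ F ∈ A, ∃ e, F.IsHomogeneous e ∧ F ≠ 0) :
    ∃ (f : MvPolynomial (Fin n) k) (a : ℕ), f.IsHomogeneous a ∧ Squarefree f ∧
      (∀ F ∈ A, f ∣ F) ∧ ∀ w, Irreducible w → (∀ F ∈ A, w ∣ F) → w ∣ f := by
  classical
  obtain ⟨F0, hF0, e0, hh0, hne⟩ := hA0
  have hdeg : ∀ {f g : MvPolynomial (Fin n) k} {a : ℕ}, f.IsHomogeneous a → f ∣ F0 → a ≤ e0 := by
    intro f g a ha hf
    obtain ⟨q, hq⟩ := hf
    rw [hq] at hh0 hne
    obtain ⟨a', b', ha', hb', hab⟩ := hom_factor hh0 hne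
    have h1 : a' = a := IsHomogeneous.inj_right ha' ha (left_ne_zero_of_mul hne)
    omega
  let P : ℕ → Prop := fun d => ∃ f : MvPolynomial (Fin n) k, f.IsHomogeneous d ∧ Squarefree f ∧
    ∀ F ∈ A, f ∣ F
  have hP0 : P 0 := ⟨1, isHomogeneous_one _ _, squarefree_one, fun F _ => one_dvd F⟩
  obtain ⟨f, hf, hsq, hdvd⟩ : P (Nat.findGreatest P e0) := Nat.findGreatest_spec (Nat.zero_le e0) hP0
  refine ⟨f, _, hf, hsq, hdvd, fun w hw hwA => ?_⟩
  by_contra hwf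
  have hw0 := hwA F0 hF0
  obtain ⟨q, hq⟩ := hw0
  have hh1 := hh0
  have hne1 := hne
  rw [hq] at hh1 hne1
  obtain ⟨b, b', hb, -, -⟩ := hom_factor hh1 hne1
  have hbpos : 0 < b := by
    rcases Nat.eq_zero_or_pos b with h0 | h0
    · subst h0
      exact absurd (unit_of_zero hb hw.ne_zero) hw.not_isUnit
    · exact h0
  have hrel : IsRelPrime w f := hw.isRelPrime_iff_not_dvd.mpr hwf
  have hP1 : P (b + Nat.findGreatest P e0) := by
    refine ⟨w * f, hb.mul hf, ?_, fun F hF => hrel.mul_dvd (hwA F hF) (hdvd F hF)⟩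
    exact (squarefree_mul_iff.mpr ⟨hrel, hw.squarefree, hsq⟩)
  have hle : b + Nat.findGreatest P e0 ≤ e0 := by
    obtain ⟨f', hf', -, hd'⟩ := hP1
    exact hdeg (g := 1) hf' (hd' F0 hF0)
  have := Nat.le_findGreatest hle hP1
  omega

/-- If `f` divides all forms in `A` and `f x = 0`, then all forms in `B` vanish at `y`. -/
theorem fam_half (h2 : (2 : k) ≠ 0) (D : Dbl k n c) {A B : Set (MvPolynomial (Fin n) k)}
    (hB : ∀ g ∈ B, ∃ e, g.IsHomogeneous e)
    (hAB : ∀ (e : ℕ) (g v : MvPolynomial (Fin n) k), g ∈ B → g.IsHomogeneous e →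
      v.IsHomogeneous e → ∃ N ∈ A, ∀ x y y' : Fin n → k, (∀ p, eval x (D.G' p) = pr y y' p) →
        eval x N = eval y g * eval y' v + eval y v * eval y' g)
    {f : MvPolynomial (Fin n) k} (hf : ∀ F ∈ A, f ∣ F) {x y : Fin n → k} (hxy : (x, y) ∈ D.S)
    (hG : ∃ p, eval x (D.G' p) ≠ 0) (hx : eval x f = 0) {g : MvPolynomial (Fin n) k}
    (hg : g ∈ B) : eval y g = 0 := by
  obtain ⟨e, hge⟩ := hB g hg
  obtain ⟨y', hy', hp⟩ := D.sy hxy hG
  have key : ∀ v : MvPolynomial (Fin n) k, v.IsHomogeneous e →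
      eval y g * eval y' v + eval y v * eval y' g = 0 := by
    intro v hv
    obtain ⟨N, hN, hval⟩ := hAB e g v hg hge hv
    obtain ⟨q, hq⟩ := hf N hN
    rw [← hval x y y' hp, hq, map_mul, hx, zero_mul]
  have h3 : eval y g * eval y' g = 0 := by
    have : (2 : k) * (eval y g * eval y' g) = 0 := by linear_combination key g hge
    exact (mul_eq_zero.mp this).resolve_left h2
  rcases mul_eq_zero.mp h3 with h4 | h4
  · exact h4
  obtain ⟨j, hj⟩ : ∃ j, y' j ≠ 0 := by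
    by_contra hc
    push Not at hc
    exact D.ne2 hy' (funext hc)
  have hv : (MvPolynomial.X j ^ e : MvPolynomial (Fin n) k).IsHomogeneous e := by
    have := (isHomogeneous_X k j).pow e
    rwa [one_mul] at this
  have h5 := key _ hv
  rw [h4, mul_zero, add_zero, map_pow, eval_X] at h5
  exact (mul_eq_zero.mp h5).resolve_right (pow_ne_zero _ hj)

/-- One half of the compatibility. -/
theorem fam_compat [IsAlgClosed k] (h2 : (2 : k) ≠ 0) (hn : 2 ≤ n) (D : Dbl k n c)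
    (hd : D.Dense) {A B : Set (MvPolynomial (Fin n) k)} (hB : ∀ g ∈ B, ∃ e, g.IsHomogeneous e)
    (hB0 : ∃ F ∈ B, ∃ e, F.IsHomogeneous e ∧ F ≠ 0)
    (hAB : ∀ (e : ℕ) (g v : MvPolynomial (Fin n) k), g ∈ B → g.IsHomogeneous e →
      v.IsHomogeneous e → ∃ N ∈ A, ∀ x y y' : Fin n → k, (∀ p, eval x (D.G' p) = pr y y' p) →
        eval x N = eval y g * eval y' v + eval y v * eval y' g)
    {f : MvPolynomial (Fin n) k} {a : ℕ} (hfa : f.IsHomogeneous a) (hf : ∀ F ∈ A, f ∣ F)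
    {q : MvPolynomial (Fin n) k} (hq : ∀ w, Irreducible w → (∀ F ∈ B, w ∣ F) → w ∣ q)
    {x y : Fin n → k} (hxy : (x, y) ∈ D.S) (hGy : ∃ p, eval y (D.G p) ≠ 0)
    (hx : eval x f = 0) : eval y q = 0 := by
  obtain ⟨M, hMd, hM⟩ := D.exists_norm h2 hfa hfa
  -- the forms in `B` vanish at the good points where `M` vanishes
  have hvan : ∀ y : Fin n → k, y ≠ 0 → D.Good y → eval y M = 0 → ∀ g ∈ B, eval y g = 0 := by
    intro y hy hgood hMy g hg
    obtain ⟨x, x', hx, hx', -, e⟩ := eval_norm_of_good hM hy hgood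
    rw [hMy, ← two_mul] at e
    rcases mul_eq_zero.1 ((mul_eq_zero.1 e.symm).resolve_left h2) with h3 | h3
    · exact fam_half h2 D hB hAB hf hx (hgood.2 x hx) h3 hg
    · exact fam_half h2 D hB hAB hf hx' (hgood.2 x' hx') h3 hg
  have hM0 : M ≠ 0 := by
    rintro rfl
    obtain ⟨F, hF, e, -, hF0⟩ := hB0
    exact hF0 (dense0 hn D hd fun y hy hgood => hvan y hy hgood (map_zero _) F hF)
  obtain ⟨x', hx', e⟩ := D.sx hxy hGy
  have hMy : eval y M = 0 := by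
    rw [hM x x' y e, hx]
    ring
  obtain ⟨w, hw, hwM, hwy⟩ := exists_irreducible_eval hM0 hMy
  have hwq : w ∣ q := by
    refine hq w hw fun F hF => hd w hw F fun z hz hgood hwz => hvan z hz hgood ?_ F hF
    obtain ⟨r, hr⟩ := hwM
    rw [hr, map_mul, hwz, zero_mul]
  obtain ⟨r, hr⟩ := hwq
  rw [hr, map_mul, hwy, zero_mul]

/-- Two families of forms which are stable under the norms. -/
theorem fam [IsAlgClosed k] (h2 : (2 : k) ≠ 0) (hn : 2 ≤ n) (hc : 4 ≤ c) (D : Dbl k n c)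
    (hd : D.Dense) (hd' : D.swap.Dense) {A B : Set (MvPolynomial (Fin n) k)}
    (hA : ∀ f ∈ A, ∃ e, f.IsHomogeneous e) (hB : ∀ g ∈ B, ∃ e, g.IsHomogeneous e)
    (hA0 : ∃ F ∈ A, F ≠ 0) (hB0 : ∃ F ∈ B, F ≠ 0)
    (hAB : ∀ (e : ℕ) (g v : MvPolynomial (Fin n) k), g ∈ B → g.IsHomogeneous e →
      v.IsHomogeneous e → ∃ N ∈ A, ∀ x y y' : Fin n → k, (∀ p, eval x (D.G' p) = pr y y' p) →
        eval x N = eval y g * eval y' v + eval y v * eval y' g)
    (hBA : ∀ (e : ℕ) (f u : MvPolynomial (Fin n) k), f ∈ A → f.IsHomogeneous e →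
      u.IsHomogeneous e → ∃ N ∈ B, ∀ y x x' : Fin n → k, (∀ p, eval y (D.G p) = pr x x' p) →
        eval y N = eval x f * eval x' u + eval x u * eval x' f)
    {h : MvPolynomial (Fin n) k} {d : ℕ} (hh : h.IsHomogeneous d) (hpos : 0 < d)
    (hdvd : ∀ F ∈ A, h ∣ F) : False := by
  have hA1 : ∃ F ∈ A, ∃ e, F.IsHomogeneous e ∧ F ≠ 0 := by
    obtain ⟨F, hF, h0⟩ := hA0
    obtain ⟨e, he⟩ := hA F hF
    exact ⟨F, hF, e, he, h0⟩
  have hB1 : ∃ F ∈ B, ∃ e, F.IsHomogeneous e ∧ F ≠ 0 := by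
    obtain ⟨F, hF, h0⟩ := hB0
    obtain ⟨e, he⟩ := hB F hF
    exact ⟨F, hF, e, he, h0⟩
  have : Infinite k := IsAlgClosed.instInfinite
  obtain ⟨f, a, hf, hfsq, hfdvd, hfmax⟩ := exists_gcd hA1
  obtain ⟨q, b, hq, hqsq, hqdvd, hqmax⟩ := exists_gcd hB1
  have hh0 : h ≠ 0 := by
    rintro rfl
    obtain ⟨F, hF, h0⟩ := hA0
    exact h0 (zero_dvd_iff.mp (hdvd F hF))
  have hapos : 0 < a := by
    have hnu : ¬ IsUnit h := by
      intro hu
      rw [MvPolynomial.isUnit_iff_totalDegree_of_isReduced] at hu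
      have h3 := hh.totalDegree hh0
      omega
    obtain ⟨w, hw, hwh⟩ := WfDvdMonoid.exists_irreducible_factor hnu hh0
    have hwf : w ∣ f := hfmax w hw fun F hF => hwh.trans (hdvd F hF)
    rcases Nat.eq_zero_or_pos a with h0 | h0
    · exfalso
      rw [h0] at hf
      exact hw.not_isUnit (isUnit_of_dvd_unit hwf (unit_of_zero hf hfsq.ne_zero))
    · exact h0
  refine no_compat h2 hn hc D hd hd' hf hq hfsq hqsq hapos fun x y hxy hGy hGx => ⟨?_, ?_⟩
  · exact fun h0 => fam_compat h2 hn D hd hB hB1 hAB hf hfdvd hqmax hxy hGy h0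
  · exact fun h0 => fam_compat (D := D.swap) h2 hn hd' hA hA1 hBA hq hqdvd hfmax
      (show (y, x) ∈ D.swap.S from hxy) hGx h0

/-- A form which is not zero has a norm which is not zero. -/
theorem fam_ne [IsAlgClosed k] (h2 : (2 : k) ≠ 0) (hn : 2 ≤ n) (D : Dbl k n c)
    (hd' : D.swap.Dense) {F : MvPolynomial (Fin n) k} {e : ℕ} (hF : F.IsHomogeneous e)
    (hF0 : F ≠ 0) : ∃ (u : MvPolynomial (Fin n) k) (x x' y : Fin n → k), u.IsHomogeneous e ∧
      (∀ p, eval y (D.G p) = pr x x' p) ∧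
      eval x F * eval x' u + eval x u * eval x' F ≠ 0 := by
  obtain ⟨x, hx, hgood, hxF⟩ : ∃ x, x ≠ 0 ∧ D.swap.Good x ∧ eval x F ≠ 0 := by
    by_contra hcon
    push Not at hcon
    exact hF0 (dense0 hn D.swap hd' hcon)
  obtain ⟨y, hy⟩ := D.swap.ex hx hgood.1
  have hxy : (x, y) ∈ D.S := hy
  have hGy : ∃ p, eval y (D.G p) ≠ 0 := hgood.2 y hy
  obtain ⟨x', hx', hp⟩ := D.sx hxy hGy
  by_cases h0 : eval x' F = 0
  · obtain ⟨j, hj⟩ : ∃ j, x' j ≠ 0 := by
      by_contra hcon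
      push Not at hcon
      exact D.ne1 hx' (funext hcon)
    refine ⟨MvPolynomial.X j ^ e, x, x', y, ?_, hp, ?_⟩
    · have := (isHomogeneous_X k j).pow e
      rwa [one_mul] at this
    · rw [h0, mul_zero, add_zero, map_pow, eval_X]
      exact mul_ne_zero hxF (pow_ne_zero _ hj)
  · refine ⟨F, x, x', y, hF, hp, ?_⟩
    rw [← two_mul]
    exact mul_ne_zero h2 (mul_ne_zero hxF h0)

/-- The same as `fam` for graded families; it is enough that one of them is not zero. -/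
theorem famG [IsAlgClosed k] (h2 : (2 : k) ≠ 0) (hn : 2 ≤ n) (hc : 4 ≤ c) (D : Dbl k n c)
    (hd : D.Dense) (hd' : D.swap.Dense) (A B : ℕ → Set (MvPolynomial (Fin n) k))
    (hA : ∀ e, ∀ F ∈ A e, F.IsHomogeneous e) (hB : ∀ e, ∀ F ∈ B e, F.IsHomogeneous e)
    (hA0 : ∃ e, ∃ F ∈ A e, F ≠ 0)
    (hAB : ∀ e, ∀ g ∈ B e, ∀ v : MvPolynomial (Fin n) k, v.IsHomogeneous e →
      ∃ e', ∃ N ∈ A e', ∀ x y y' : Fin n → k, (∀ p, eval x (D.G' p) = pr y y' p) →
        eval x N = eval y g * eval y' v + eval y v * eval y' g)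
    (hBA : ∀ e, ∀ f ∈ A e, ∀ u : MvPolynomial (Fin n) k, u.IsHomogeneous e →
      ∃ e', ∃ N ∈ B e', ∀ y x x' : Fin n → k, (∀ p, eval y (D.G p) = pr x x' p) →
        eval y N = eval x f * eval x' u + eval x u * eval x' f)
    {h : MvPolynomial (Fin n) k} {d : ℕ} (hh : h.IsHomogeneous d) (hpos : 0 < d)
    (hdvd : ∀ e, ∀ F ∈ A e, h ∣ F) : False := by
  have hB0 : ∃ e, ∃ F ∈ B e, F ≠ 0 := by
    obtain ⟨e, F, hF, hF0⟩ := hA0
    obtain ⟨u, x, x', y, hu, hp, hne⟩ := fam_ne h2 hn D hd' (hA e F hF) hF0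
    obtain ⟨e', N, hN, hval⟩ := hBA e F hF u hu
    refine ⟨e', N, hN, ?_⟩
    rintro rfl
    rw [← hval y x x' hp, map_zero] at hne
    exact hne rfl
  have key : ∀ (A B : ℕ → Set (MvPolynomial (Fin n) k)) (G : Fin n × Fin n →
      MvPolynomial (Fin n) k), (∀ e, ∀ F ∈ B e, F.IsHomogeneous e) →
      (∀ e, ∀ g ∈ B e, ∀ v : MvPolynomial (Fin n) k, v.IsHomogeneous e →
      ∃ e', ∃ N ∈ A e', ∀ x y y' : Fin n → k, (∀ p, eval x (G p) = pr y y' p) →
        eval x N = eval y g * eval y' v + eval y v * eval y' g) →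
      ∀ (e : ℕ) (g v : MvPolynomial (Fin n) k), g ∈ {F | F = 0 ∨ ∃ e, F ∈ B e} →
      g.IsHomogeneous e → v.IsHomogeneous e → ∃ N ∈ {F | F = 0 ∨ ∃ e, F ∈ A e},
      ∀ x y y' : Fin n → k, (∀ p, eval x (G p) = pr y y' p) →
        eval x N = eval y g * eval y' v + eval y v * eval y' g := by
    intro A B G hB hAB e g v hg hge hv
    by_cases h0 : g = 0
    · refine ⟨0, Or.inl rfl, fun x y y' _ => ?_⟩
      rw [h0]
      simp
    · obtain ⟨e1, hg1⟩ := hg.resolve_left h0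
      have he : e1 = e := IsHomogeneous.inj_right (hB e1 g hg1) hge h0
      subst he
      obtain ⟨e', N, hN, hval⟩ := hAB e1 g hg1 v hv
      exact ⟨N, Or.inr ⟨e', hN⟩, hval⟩
  refine fam h2 hn hc D hd hd' (A := {F | F = 0 ∨ ∃ e, F ∈ A e}) (B := {F | F = 0 ∨ ∃ e, F ∈ B e})
    ?_ ?_ ?_ ?_ (key A B D.G' hB hAB) (key B A D.G hA hBA) hh hpos ?_
  · rintro f (rfl | ⟨e, he⟩)
    · exact ⟨0, isHomogeneous_zero _ _ _⟩
    · exact ⟨e, hA e f he⟩
  · rintro f (rfl | ⟨e, he⟩)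
    · exact ⟨0, isHomogeneous_zero _ _ _⟩
    · exact ⟨e, hB e f he⟩
  · obtain ⟨e, F, hF, hF0⟩ := hA0
    exact ⟨F, Or.inr ⟨e, hF⟩, hF0⟩
  · obtain ⟨e, F, hF, hF0⟩ := hB0
    exact ⟨F, Or.inr ⟨e, hF⟩, hF0⟩
  · rintro F (rfl | ⟨e, he⟩)
    · exact dvd_zero h
    · exact hdvd e F he

end Pool.Agent.Helper47.W3
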