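import Mathlib
import Pool.Agent.Helper47.W3.Fam

/-!
# One factor

`R` is a domain (polynomials in the coordinates of the other factors), `κ` an algebraically closed
field which contains `R`, `D` two double coverings over `κ` given by forms over `R`.  A family of
`Ω`-points (`β i : R → Ω`, `X i`, `Y i` in affine coordinates) is stable under both involutions.
If a polynomial `w` over `R` divides all polynomials which vanish at all `X i`, and if there is such
a polynomial which is not zero, then `w` is of degree zero.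
-/

namespace Pool.Agent.Helper47.W3

open MvPolynomial Pool.Agent.Helper47.NI

section homog

variable {R : Type*} [CommRing R] {n : ℕ}

/-- Put the first variable equal to `1`. -/
noncomputable def dh : MvPolynomial (Fin (n + 1)) R →ₐ[R] MvPolynomial (Fin n) R :=
  aeval (Fin.cons 1 X)

theorem dh_eq (F : MvPolynomial (Fin (n + 1)) R) : dh F = (finSuccEquiv R n F).eval 1 := by
  have : ((Polynomial.evalRingHom (1 : MvPolynomial (Fin n) R)).comp
      (finSuccEquiv R n).toAlgHom.toRingHom) = (dh : MvPolynomial (Fin (n + 1)) R →ₐ[R] _).toRingHom := by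
    apply MvPolynomial.ringHom_ext
    · intro r
      have h1 : (finSuccEquiv R n) (C r) = Polynomial.C (C r) := (finSuccEquiv R n).commutes r
      show ((finSuccEquiv R n) (C r)).eval 1 = dh (C r)
      rw [h1, Polynomial.eval_C, dh, algHom_C]
      rfl
    · intro i
      show ((finSuccEquiv R n) (X i)).eval 1 = dh (X i)
      refine Fin.cases ?_ (fun j => ?_) i
      · rw [finSuccEquiv_X_zero, Polynomial.eval_X, dh, aeval_X, Fin.cons_zero]
      · rw [finSuccEquiv_X_succ, Polynomial.eval_C, dh, aeval_X, Fin.cons_succ]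
  exact (DFunLike.congr_fun this F).symm

theorem dh_sum {F : MvPolynomial (Fin (n + 1)) R} {e : ℕ} (hF : F.IsHomogeneous e) :
    dh F = ∑ i ∈ Finset.range (e + 1), (finSuccEquiv R n F).coeff i := by
  have h1 : (finSuccEquiv R n F).natDegree < e + 1 := by
    rw [natDegree_finSuccEquiv]
    exact Nat.lt_succ_of_le ((degreeOf_le_totalDegree F 0).trans hF.totalDegree_le)
  rw [dh_eq, Polynomial.eval_eq_sum_range' h1]
  refine Finset.sum_congr rfl fun i _ => ?_
  rw [one_pow, mul_one]

theorem dh_totalDegree {F : MvPolynomial (Fin (n + 1)) R} {e : ℕ} (hF : F.IsHomogeneous e) :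
    (dh F).totalDegree ≤ e := by
  rw [dh_sum hF]
  refine totalDegree_finsetSum_le fun i hi => ?_
  have hi' : i ≤ e := Nat.lt_succ_iff.mp (Finset.mem_range.mp hi)
  have := hF.finSuccEquiv_coeff_isHomogeneous i (e - i) (by omega)
  exact this.totalDegree_le.trans (Nat.sub_le _ _)

theorem dh_zero {F : MvPolynomial (Fin (n + 1)) R} {e : ℕ} (hF : F.IsHomogeneous e)
    (h : dh F = 0) : F = 0 := by
  apply (finSuccEquiv R n).injective
  rw [map_zero]
  refine Polynomial.ext fun i => ?_
  rw [Polynomial.coeff_zero]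
  by_cases hi : i ≤ e
  · have h1 := congrArg (homogeneousComponent (e - i)) (dh_sum hF)
    rw [h, map_zero, map_sum, Finset.sum_eq_single i] at h1
    · rw [homogeneousComponent_of_mem
        ((mem_homogeneousSubmodule _ _).mpr
          (hF.finSuccEquiv_coeff_isHomogeneous i (e - i) (by omega)))] at h1
      rw [if_pos rfl] at h1
      exact h1.symm
    · intro j hj hji
      have hj' : j ≤ e := Nat.lt_succ_iff.mp (Finset.mem_range.mp hj)
      rw [homogeneousComponent_of_mem
        ((mem_homogeneousSubmodule _ _).mpr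
          (hF.finSuccEquiv_coeff_isHomogeneous j (e - j) (by omega)))]
      rw [if_neg (by omega)]
    · intro hi'
      exact absurd (Finset.mem_range.mpr (by omega)) hi'
  · apply Polynomial.coeff_eq_zero_of_natDegree_lt
    rw [natDegree_finSuccEquiv]
    exact lt_of_le_of_lt ((degreeOf_le_totalDegree F 0).trans hF.totalDegree_le) (by omega)

theorem dh_inj {F F' : MvPolynomial (Fin (n + 1)) R} {e : ℕ} (hF : F.IsHomogeneous e)
    (hF' : F'.IsHomogeneous e) (h : dh F = dh F') : F = F' := by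
  rw [← sub_eq_zero]
  exact dh_zero (hF.sub hF') (by rw [map_sub, h, sub_self])

/-- The homogenization of degree `d`. -/
noncomputable def hg (d : ℕ) (p : MvPolynomial (Fin n) R) : MvPolynomial (Fin (n + 1)) R :=
  ∑ i ∈ Finset.range (d + 1), X 0 ^ (d - i) * rename Fin.succ (homogeneousComponent i p)

theorem hg_isHomogeneous (d : ℕ) (p : MvPolynomial (Fin n) R) : (hg d p).IsHomogeneous d := by
  refine IsHomogeneous.sum _ _ _ fun i hi => ?_
  have hi' : i ≤ d := Nat.lt_succ_iff.mp (Finset.mem_range.mp hi)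
  have h1 := ((isHomogeneous_X R (0 : Fin (n + 1))).pow (d - i)).mul
    ((homogeneousComponent_isHomogeneous i p).rename_isHomogeneous (f := Fin.succ))
  have h2 : 1 * (d - i) + i = d := by omega
  rwa [h2] at h1

theorem dh_hg {d : ℕ} {p : MvPolynomial (Fin n) R} (h : p.totalDegree ≤ d) : dh (hg d p) = p := by
  have h1 : ∀ q : MvPolynomial (Fin n) R, dh (rename Fin.succ q) = q := by
    intro q
    rw [dh, aeval_rename]
    have : (Fin.cons 1 X ∘ Fin.succ : Fin n → MvPolynomial (Fin n) R) = X := by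
      funext i
      simp
    rw [this, aeval_X_left_apply]
  rw [hg, map_sum]
  have h2 : ∀ i ∈ Finset.range (d + 1), dh (X 0 ^ (d - i) *
      rename Fin.succ (homogeneousComponent i p)) = homogeneousComponent i p := by
    intro i _
    rw [map_mul, map_pow, h1]
    have : (dh (X 0) : MvPolynomial (Fin n) R) = 1 := by
      rw [dh, aeval_X]
      simp
    rw [this, one_pow, one_mul]
  rw [Finset.sum_congr rfl h2]
  conv_rhs => rw [← sum_homogeneousComponent p]
  refine (Finset.sum_subset (Finset.range_mono (by omega)) fun i _ hi => ?_).symm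
  apply homogeneousComponent_eq_zero
  rw [Finset.mem_range] at hi
  omega

theorem hg_dvd [IsDomain R] {w : MvPolynomial (Fin n) R} {F : MvPolynomial (Fin (n + 1)) R} {e : ℕ}
    (hF : F.IsHomogeneous e) (h : w ∣ dh F) : hg w.totalDegree w ∣ F := by
  by_cases hF0 : F = 0
  · rw [hF0]
    exact dvd_zero _
  obtain ⟨q, hq⟩ := h
  have h0 : dh F ≠ 0 := fun h => hF0 (dh_zero hF h)
  have hw0 : w ≠ 0 := fun h => h0 (by rw [hq, h, zero_mul])
  have hq0 : q ≠ 0 := fun h => h0 (by rw [hq, h, mul_zero])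
  have hdeg := dh_totalDegree hF
  rw [hq, totalDegree_mul_of_isDomain hw0 hq0] at hdeg
  refine ⟨hg (e - w.totalDegree) q, dh_inj hF ?_ ?_⟩
  · have := (hg_isHomogeneous w.totalDegree w).mul (hg_isHomogeneous (e - w.totalDegree) q)
    have h2 : w.totalDegree + (e - w.totalDegree) = e := by omega
    rwa [h2] at this
  · rw [map_mul, dh_hg le_rfl, dh_hg (by omega), hq]

theorem eval_dh {S : Type*} [CommRing S] (β : R →+* S) (x : Fin n → S)
    (F : MvPolynomial (Fin (n + 1)) R) :
    eval₂ β x (dh F) = eval₂ β (Fin.cons 1 x) F := by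
  have : (eval₂Hom β x).comp (dh : MvPolynomial (Fin (n + 1)) R →ₐ[R] _).toRingHom =
      eval₂Hom β (Fin.cons 1 x) := by
    apply MvPolynomial.ringHom_ext
    · intro r
      simp [dh]
    · intro i
      refine Fin.cases ?_ (fun j => ?_) i
      · simp [dh]
      · simp [dh]
  exact DFunLike.congr_fun this F

end homog

section fam

variable {R κ Ω : Type} [CommRing R] [Field κ] [Algebra R κ] [Field Ω] {n c : ℕ} {ι : Type}

/-- The forms over `R` which vanish on the family. -/
def V (β : ι → R →+* Ω) (X : ι → Fin n → Ω) (e : ℕ) : Set (MvPolynomial (Fin (n + 1)) R) :=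
  {F | F.IsHomogeneous e ∧ ∀ i, eval₂ (β i) (Fin.cons 1 (X i)) F = 0}

/-- Their span over `κ`. -/
noncomputable def Sp (κ : Type) [Field κ] [Algebra R κ] (β : ι → R →+* Ω) (X : ι → Fin n → Ω)
    (e : ℕ) : Submodule κ (MvPolynomial (Fin (n + 1)) κ) :=
  Submodule.span κ ((MvPolynomial.map (algebraMap R κ)) '' V β X e)

theorem scale {S T : Type*} [CommRing S] [CommRing T] {m : Type*} [Fintype m] {e : ℕ}
    {H : MvPolynomial m S} (hH : H.IsHomogeneous e) (β : S →+* T) (l : T) (z : m → T) :
    eval₂ β (fun p => l * z p) H = l ^ e * eval₂ β z H := by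
  rw [eval₂_eq, eval₂_eq, Finset.mul_sum]
  refine Finset.sum_congr rfl fun a ha => ?_
  have hn := hH.degree_eq_sum_deg_support ha
  simp only [mul_pow]
  rw [Finset.prod_mul_distrib, Finset.prod_pow_eq_pow_sum, ← hn]
  ring

theorem Sp_hom (β : ι → R →+* Ω) (X : ι → Fin n → Ω) (e : ℕ) {F : MvPolynomial (Fin (n + 1)) κ}
    (hF : F ∈ Sp κ β X e) : F.IsHomogeneous e := by
  have h1 : Sp κ β X e ≤ homogeneousSubmodule (Fin (n + 1)) κ e := by
    rw [Sp, Submodule.span_le]
    rintro _ ⟨F, hF, rfl⟩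
    exact (mem_homogeneousSubmodule _ _).mpr (hF.1.map _)
  exact (mem_homogeneousSubmodule _ _).mp (h1 hF)

/-- The norms of a form over `R` and a monomial. -/
theorem norm_mono (r : R) (hr : 2 * r = 1) (G : Fin (n + 1) × Fin (n + 1) →
      MvPolynomial (Fin (n + 1)) R) (hG : ∀ p, (G p).IsHomogeneous c)
    (β : ι → R →+* Ω) (X Y : ι → Fin n → Ω) (t : ι → ι) (hβ : ∀ i, β (t i) = β i)
    (ht : ∀ i, ∃ l : Ω, ∀ p, eval₂ (β i) (Fin.cons 1 (X i)) (G p) =
      l * pr (Fin.cons 1 (Y i)) (Fin.cons 1 (Y (t i))) p)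
    (e : ℕ) {g v : MvPolynomial (Fin (n + 1)) R} (hg : g ∈ V β Y e) (hv : v.IsHomogeneous e) :
    ∃ N ∈ V β X (c * e), ∀ x y y' : Fin (n + 1) → κ,
      (∀ p, eval x (MvPolynomial.map (algebraMap R κ) (G p)) = pr y y' p) →
      eval x (MvPolynomial.map (algebraMap R κ) N) =
        eval y (MvPolynomial.map (algebraMap R κ) g) *
          eval y' (MvPolynomial.map (algebraMap R κ) v) +
        eval y (MvPolynomial.map (algebraMap R κ) v) *
          eval y' (MvPolynomial.map (algebraMap R κ) g) := by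
  obtain ⟨H, hH, hval⟩ := exists_sym.{_, 0} r hr e g v hg.1 hv
  refine ⟨aeval G H, ⟨hH.aeval G hG, fun i => ?_⟩, fun x y y' hp => ?_⟩
  · let : Algebra R Ω := (β i).toAlgebra
    obtain ⟨l, hl⟩ := ht i
    have e1 : eval₂ (β i) (Fin.cons 1 (X i)) (aeval G H) =
        eval₂ (β i) (fun p => l * pr (Fin.cons 1 (Y i)) (Fin.cons 1 (Y (t i))) p) H := by
      have e2 : (aeval (Fin.cons 1 (X i)) : MvPolynomial (Fin (n + 1)) R →ₐ[R] Ω) (aeval G H) =
          aeval (fun p => l * pr (Fin.cons 1 (Y i)) (Fin.cons 1 (Y (t i))) p) H := by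
        rw [comp_aeval_apply]
        congr 2
        funext p
        exact hl p
      exact e2
    rw [e1, scale hH]
    have e3 := hval Ω (Fin.cons 1 (Y i)) (Fin.cons 1 (Y (t i)))
    have e4 : (aeval (Fin.cons 1 (Y i)) : MvPolynomial (Fin (n + 1)) R →ₐ[R] Ω) g = 0 := hg.2 i
    have e5 : (aeval (Fin.cons 1 (Y (t i))) : MvPolynomial (Fin (n + 1)) R →ₐ[R] Ω) g = 0 := by
      have := hg.2 (t i)
      rw [hβ i] at this
      exact this
    rw [e4, e5, zero_mul, mul_zero, add_zero] at e3
    have e6 : eval₂ (β i) (pr (Fin.cons 1 (Y i)) (Fin.cons 1 (Y (t i)))) H = 0 := e3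
    rw [e6, mul_zero]
  · have e1 : ∀ (z : Fin (n + 1) → κ) (p : MvPolynomial (Fin (n + 1)) R),
        eval z (MvPolynomial.map (algebraMap R κ) p) = aeval z p := by
      intro z p
      rw [eval_map]
      rfl
    rw [e1, e1, e1, e1, e1, ← hval κ y y', comp_aeval_apply]
    congr 2
    funext p
    rw [← hp p, e1]

/-- The norms of forms in the span. -/
theorem norm_span (r : R) (hr : 2 * r = 1) (G : Fin (n + 1) × Fin (n + 1) →
      MvPolynomial (Fin (n + 1)) R) (hG : ∀ p, (G p).IsHomogeneous c)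
    (β : ι → R →+* Ω) (X Y : ι → Fin n → Ω) (t : ι → ι) (hβ : ∀ i, β (t i) = β i)
    (ht : ∀ i, ∃ l : Ω, ∀ p, eval₂ (β i) (Fin.cons 1 (X i)) (G p) =
      l * pr (Fin.cons 1 (Y i)) (Fin.cons 1 (Y (t i))) p)
    (e : ℕ) {g : MvPolynomial (Fin (n + 1)) κ} (hg : g ∈ Sp κ β Y e)
    {v : MvPolynomial (Fin (n + 1)) κ} (hv : v.IsHomogeneous e) :
    ∃ N ∈ Sp κ β X (c * e), ∀ x y y' : Fin (n + 1) → κ,
      (∀ p, eval x (MvPolynomial.map (algebraMap R κ) (G p)) = pr y y' p) →
      eval x N = eval y g * eval y' v + eval y v * eval y' g := by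
  classical
  induction hg using Submodule.span_induction with
  | mem g hg =>
    obtain ⟨g0, hg0, rfl⟩ := hg
    have key : ∀ m ∈ v.support, ∃ N ∈ V β X (c * e), ∀ x y y' : Fin (n + 1) → κ,
        (∀ p, eval x (MvPolynomial.map (algebraMap R κ) (G p)) = pr y y' p) →
        eval x (MvPolynomial.map (algebraMap R κ) N) =
          eval y (MvPolynomial.map (algebraMap R κ) g0) * eval y' (monomial m 1) +
          eval y (monomial m 1) * eval y' (MvPolynomial.map (algebraMap R κ) g0) := by
      intro m hm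
      have hdeg : m.degree = e := by
        by_contra h
        exact mem_support_iff.1 hm (hv.coeff_eq_zero h)
      have hmon : (monomial m (1 : R)).IsHomogeneous e := isHomogeneous_monomial _ hdeg
      obtain ⟨N, hN, hval⟩ := norm_mono (κ := κ) r hr G hG β X Y t hβ ht e hg0 hmon
      refine ⟨N, hN, fun x y y' hp => ?_⟩
      have := hval x y y' hp
      rwa [map_monomial, map_one] at this
    choose! N hN hval using key
    refine ⟨∑ m ∈ v.support, coeff m v • MvPolynomial.map (algebraMap R κ) (N m),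
      Submodule.sum_mem _ fun m hm => Submodule.smul_mem _ _
        (Submodule.subset_span ⟨N m, hN m hm, rfl⟩), fun x y y' hp => ?_⟩
    have hv1 : ∀ z : Fin (n + 1) → κ, eval z v =
        ∑ m ∈ v.support, coeff m v * eval z (monomial m 1) := by
      intro z
      conv_lhs => rw [← support_sum_monomial_coeff v]
      rw [map_sum]
      refine Finset.sum_congr rfl fun m _ => ?_
      rw [← mul_one (coeff m v), ← smul_eq_mul, ← smul_monomial, smul_eval, smul_eq_mul, mul_one]
    rw [hv1 y, hv1 y', map_sum, Finset.mul_sum, Finset.sum_mul, ← Finset.sum_add_distrib]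
    refine Finset.sum_congr rfl fun m hm => ?_
    rw [smul_eval, hval m hm x y y' hp]
    ring
  | zero =>
    refine ⟨0, Submodule.zero_mem _, fun x y y' _ => ?_⟩
    simp
  | add g g' _ _ h1 h2 =>
    obtain ⟨N, hN, h3⟩ := h1
    obtain ⟨N', hN', h4⟩ := h2
    refine ⟨N + N', Submodule.add_mem _ hN hN', fun x y y' hp => ?_⟩
    rw [map_add, h3 x y y' hp, h4 x y y' hp, map_add, map_add]
    ring
  | smul a g _ h1 =>
    obtain ⟨N, hN, h3⟩ := h1
    refine ⟨a • N, Submodule.smul_mem _ _ hN, fun x y y' hp => ?_⟩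
    rw [smul_eval, h3 x y y' hp, smul_eval, smul_eval]
    ring

/-- One factor. -/
theorem one_factor [IsDomain R] [IsAlgClosed κ] (hinj : Function.Injective (algebraMap R κ))
    (r : R) (hr : 2 * r = 1) (hn : 1 ≤ n) (hc : 4 ≤ c) (D : Dbl κ (n + 1) c) (hd : D.Dense)
    (hd' : D.swap.Dense) (G G' : Fin (n + 1) × Fin (n + 1) → MvPolynomial (Fin (n + 1)) R)
    (hG : ∀ p, (G p).IsHomogeneous c) (hG' : ∀ p, (G' p).IsHomogeneous c)
    (hDG : ∀ p, MvPolynomial.map (algebraMap R κ) (G p) = D.G p)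
    (hDG' : ∀ p, MvPolynomial.map (algebraMap R κ) (G' p) = D.G' p)
    (β : ι → R →+* Ω) (X Y : ι → Fin n → Ω) (s t : ι → ι)
    (hβs : ∀ i, β (s i) = β i) (hβt : ∀ i, β (t i) = β i)
    (hs : ∀ i, ∃ l : Ω, ∀ p, eval₂ (β i) (Fin.cons 1 (Y i)) (G p) =
      l * pr (Fin.cons 1 (X i)) (Fin.cons 1 (X (s i))) p)
    (ht : ∀ i, ∃ l : Ω, ∀ p, eval₂ (β i) (Fin.cons 1 (X i)) (G' p) =
      l * pr (Fin.cons 1 (Y i)) (Fin.cons 1 (Y (t i))) p)
    (F0 : MvPolynomial (Fin n) R) (hF0 : F0 ≠ 0) (hF0X : ∀ i, eval₂ (β i) (X i) F0 = 0)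
    (w : MvPolynomial (Fin n) R)
    (hw : ∀ F : MvPolynomial (Fin n) R, (∀ i, eval₂ (β i) (X i) F = 0) → w ∣ F) :
    w.totalDegree = 0 := by
  by_contra hpos
  have h2 : (2 : κ) ≠ 0 := by
    intro h
    have := congrArg (algebraMap R κ) hr
    rw [map_mul, map_one, map_ofNat, h, zero_mul] at this
    exact zero_ne_one this
  refine famG h2 (by omega) hc D hd hd' (fun e => (Sp κ β X e : Set _)) (fun e => (Sp κ β Y e : Set _))
    (fun e F hF => Sp_hom β X e hF) (fun e F hF => Sp_hom β Y e hF) ?_ ?_ ?_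
    (h := MvPolynomial.map (algebraMap R κ) (hg w.totalDegree w)) (d := w.totalDegree)
    ((hg_isHomogeneous _ _).map _) (Nat.pos_of_ne_zero hpos) ?_
  · refine ⟨F0.totalDegree, MvPolynomial.map (algebraMap R κ) (hg F0.totalDegree F0),
      Submodule.subset_span ⟨_, ⟨hg_isHomogeneous _ _, fun i => ?_⟩, rfl⟩, ?_⟩
    · rw [← eval_dh, dh_hg le_rfl]
      exact hF0X i
    · intro h
      have h1 : hg F0.totalDegree F0 = 0 := map_injective _ hinj (by rw [h, map_zero])
      have h3 := dh_hg (le_refl F0.totalDegree)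
      rw [h1, map_zero] at h3
      exact hF0 h3.symm
  · intro e g hg v hv
    obtain ⟨N, hN, hval⟩ := norm_span (κ := κ) r hr G' hG' β X Y t hβt ht e hg hv
    refine ⟨_, N, hN, fun x y y' hp => hval x y y' fun p => ?_⟩
    rw [hDG' p]
    exact hp p
  · intro e g hg v hv
    obtain ⟨N, hN, hval⟩ := norm_span (κ := κ) r hr G hG β Y X s hβs hs e hg hv
    refine ⟨_, N, hN, fun x y y' hp => hval x y y' fun p => ?_⟩
    rw [hDG p]
    exact hp p
  · intro e F hF
    have hF' : F ∈ Sp κ β X e := hF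
    clear hF
    rw [Sp] at hF'
    induction hF' using Submodule.span_induction with
    | mem F hF =>
      obtain ⟨F1, hF1, rfl⟩ := hF
      refine map_dvd _ (hg_dvd hF1.1 (hw _ fun i => ?_))
      rw [eval_dh]
      exact hF1.2 i
    | zero => exact dvd_zero _
    | add F F' _ _ h1 h2 => exact dvd_add h1 h2
    | smul a F _ h1 =>
      rw [smul_eq_C_mul]
      exact Dvd.dvd.mul_left h1 _

end fam

end Pool.Agent.Helper47.W3
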